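import Pool.Agent.Helper52.SZ.Defs

/-!
Project SZ, module SZ-5: a good star set for an insensitive set.
-/

set_option autoImplicit false

namespace Pool.Agent.Helper52.SZ

open Combinatorics

section starset

variable {ι α : Type}

/-- keep the stars of b and replace the other letters by the letters of w -/
def ss_st (b : ι → Option α) (w : ι → α) : ι → Option α := fun j => (b j).map fun _ => w j

/-- exchange the letters of the two words outside the stars of the first one -/
def ss_swap (p : (ι → Option α) × (ι → α)) : (ι → Option α) × (ι → α) :=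
  (ss_st p.1 p.2, fun j => (p.1 j).getD (p.2 j))

theorem ss_swap_involutive : Function.Involutive (ss_swap : (ι → Option α) × (ι → α) → _) := by
  rintro ⟨b, w⟩
  apply Prod.ext
  · funext j
    simp only [ss_swap, ss_st]
    cases b j <;> rfl
  · funext j
    simp only [ss_swap, ss_st]
    cases b j <;> rfl

theorem ss_av [Finite ι] [Finite α] [Nonempty α] (f : (ι → Option α) → ℝ) :
    av f = av (fun b : ι → Option α => av (fun w : ι → α => f (ss_st b w))) := by
  rw [← av_prod (fun p : (ι → Option α) × (ι → α) => f (ss_st p.1 p.2))]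
  have h : av (fun p : (ι → Option α) × (ι → α) => f (ss_st p.1 p.2)) =
      av (fun q : (ι → Option α) × (ι → α) => f q.1) :=
    av_equiv (ss_swap_involutive (ι := ι) (α := α)).toPerm
      (fun q : (ι → Option α) × (ι → α) => f q.1)
  rw [h, av_prod]
  congr 1
  funext s
  exact (av_const (X := ι → α) (f s)).symm

/-- the weight of a letter -/
noncomputable def ss_F (a : Option α) : ℝ := a.elim 1 fun _ => 1 / 2

theorem ss_sumF [Fintype α] :
    ∑ a : Option α, ss_F a = 1 + (Fintype.card α : ℝ) / 2 := by
  rw [Fintype.sum_option]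
  simp [ss_F, div_eq_mul_inv]

theorem ss_avH [Finite ι] [Finite α] :
    av (fun b : ι → Option α => ∏ᶠ j, ss_F (b j)) =
      ((1 + (Nat.card α : ℝ) / 2) / ((Nat.card α : ℝ) + 1)) ^ (Nat.card ι) := by
  classical
  have := Fintype.ofFinite ι
  have := Fintype.ofFinite α
  rw [av_eq_sum]
  have h1 : ∑ b : ι → Option α, ∏ᶠ j, ss_F (b j) = ∑ b : ι → Option α, ∏ j, ss_F (b j) :=
    Finset.sum_congr rfl fun b _ => finprod_eq_prod_of_fintype _
  have h2 := Finset.prod_univ_sum (fun _ : ι => (Finset.univ : Finset (Option α)))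
    (fun _ a => ss_F a)
  rw [Fintype.piFinset_univ] at h2
  rw [h1, ← h2, ss_sumF, Finset.prod_const, Finset.card_univ, Fintype.card_fun,
    Fintype.card_option, Nat.card_eq_fintype_card, Nat.card_eq_fintype_card, div_pow]
  push_cast
  rfl

theorem ss_H_ge [Finite ι] {n : ℕ} (b : ι → Option α) (h : Nat.card {j // b j ≠ none} < n) :
    1 ≤ 2 ^ n * ∏ᶠ j, ss_F (b j) := by
  classical
  have := Fintype.ofFinite ι
  rw [finprod_eq_prod_of_fintype]
  have h1 : ∀ j, ss_F (b j) = if b j ≠ none then (1 / 2 : ℝ) else 1 := by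
    intro j
    cases b j <;> simp [ss_F]
  rw [Finset.prod_congr rfl fun j _ => h1 j, Finset.prod_ite, Finset.prod_const, Finset.prod_const,
    one_pow, mul_one]
  have h2 : (Finset.univ.filter fun j => b j ≠ none).card ≤ n := by
    rw [Nat.card_eq_fintype_card, Fintype.card_subtype] at h
    exact h.le
  obtain ⟨m, hm⟩ := Nat.exists_eq_add_of_le h2
  rw [hm, pow_add, one_div, inv_pow]
  have h3 : (2 : ℝ) ^ (Finset.univ.filter fun j => b j ≠ none).card ≠ 0 := by positivity
  rw [mul_comm ((2 : ℝ) ^ _), mul_assoc, mul_inv_cancel₀ h3, mul_one]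
  exact one_le_pow₀ (by norm_num)

theorem ss_few [Finite ι] [Finite α] (n : ℕ) :
    dn {b : ι → Option α | Nat.card {j // b j ≠ none} < n} ≤
      2 ^ n * ((1 + (Nat.card α : ℝ) / 2) / ((Nat.card α : ℝ) + 1)) ^ (Nat.card ι) := by
  rw [← ss_avH, ← av_const_mul]
  refine av_mono fun b => ?_
  by_cases hb : Nat.card {j // b j ≠ none} < n
  · rw [Set.indicator_of_mem (show b ∈ {b : ι → Option α | Nat.card {j // b j ≠ none} < n} from hb)]
    exact ss_H_ge b hb
  · rw [Set.indicator_of_notMem
      (show b ∉ {b : ι → Option α | Nat.card {j // b j ≠ none} < n} from hb)]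
    refine mul_nonneg (by positivity) ?_
    refine finprod_nonneg fun j => ?_
    cases b j <;> simp [ss_F]

end starset

/-- the word equal to i on T and to w outside T -/
noncomputable def fillT {α ι : Type} (i : α) (T : Set ι) (w : {j // j ∉ T} → α) : ι → α :=
  open Classical in fun j => if h : j ∉ T then w ⟨j, h⟩ else i

theorem ss_rep {ι α : Type} (i : α) (b : ι → Option α) (w : ι → α) :
    rep i (ss_st b w) = fillT i {j | b j = none} (fun j => w j.1) := by
  funext j
  simp only [rep, ss_st, fillT]
  by_cases h : b j = none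
  · rw [dif_neg (by simpa using h), h]
    rfl
  · rw [dif_pos (by simpa using h)]
    obtain ⟨a, ha⟩ := Option.ne_none_iff_exists'.mp h
    rw [ha]
    rfl

theorem exists_starset {α : Type} [Finite α] [Nonempty α] (n : ℕ) (δ : ℝ) (hδ : 0 < δ) :
    ∃ n0 : ℕ, ∀ (ι : Type) [Finite ι], n0 ≤ Nat.card ι → ∀ (i : α) (E : Set (ι → Option α)),
      Ins i E → δ ≤ dn E →
      ∃ T : Set ι, n ≤ Nat.card {j // j ∉ T} ∧
        δ / 2 ≤ dn {w : {j // j ∉ T} → α | inc (fillT i T w) ∈ E} := by
  classical
  set q : ℝ := (1 + (Nat.card α : ℝ) / 2) / ((Nat.card α : ℝ) + 1) with hq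
  have hk : (1 : ℝ) ≤ Nat.card α := by
    exact_mod_cast Nat.card_pos
  have hq0 : 0 ≤ q := by positivity
  have hq1 : q < 1 := by
    rw [hq, div_lt_one (by positivity)]
    linarith
  obtain ⟨n0, hn0⟩ := exists_pow_lt_of_lt_one (show (0 : ℝ) < δ / 2 / 2 ^ n by positivity) hq1
  refine ⟨n0, fun ι _ hι i E hE hd => ?_⟩
  have hfew : dn {b : ι → Option α | Nat.card {j // b j ≠ none} < n} < δ / 2 := by
    refine lt_of_le_of_lt (ss_few n) ?_
    have h1 : q ^ (Nat.card ι) ≤ q ^ n0 := pow_le_pow_of_le_one hq0 hq1.le hι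
    have h2 : q ^ (Nat.card ι) < δ / 2 / 2 ^ n := lt_of_le_of_lt h1 hn0
    rw [lt_div_iff₀ (by positivity)] at h2
    rw [mul_comm]
    exact h2
  -- a good b
  have hb : ∃ b : ι → Option α, ¬ Nat.card {j // b j ≠ none} < n ∧
      δ / 2 ≤ dn {w : ι → α | ss_st b w ∈ E} := by
    by_contra hcon
    push Not at hcon
    have h1 : dn E = av (fun b : ι → Option α => dn {w : ι → α | ss_st b w ∈ E}) := by
      rw [dn, ss_av]
      rfl
    have h2 : ∀ b : ι → Option α, dn {w : ι → α | ss_st b w ∈ E} ≤
        {b : ι → Option α | Nat.card {j // b j ≠ none} < n}.indicator (fun _ => (1 : ℝ)) b +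
          δ / 2 := by
      intro b
      by_cases hb : Nat.card {j // b j ≠ none} < n
      · rw [Set.indicator_of_mem
          (show b ∈ {b : ι → Option α | Nat.card {j // b j ≠ none} < n} from hb)]
        have := dn_le_one {w : ι → α | ss_st b w ∈ E}
        linarith
      · rw [Set.indicator_of_notMem
          (show b ∉ {b : ι → Option α | Nat.card {j // b j ≠ none} < n} from hb)]
        have := hcon b (by omega)
        linarith
    have h3 := av_mono h2
    rw [← h1, av_add, av_const] at h3
    have h4 : av ({b : ι → Option α | Nat.card {j // b j ≠ none} < n}.indicator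
        fun _ => (1 : ℝ)) = dn {b : ι → Option α | Nat.card {j // b j ≠ none} < n} := rfl
    rw [h4] at h3
    linarith
  obtain ⟨b, hb1, hb2⟩ := hb
  refine ⟨{j | b j = none}, ?_, ?_⟩
  · have : Nat.card {j // j ∉ {j | b j = none}} = Nat.card {j // b j ≠ none} := rfl
    rw [this]
    omega
  · refine hb2.trans (le_of_eq ?_)
    let e : ι ≃ {j // j ∉ {j | b j = none}} ⊕ {j // ¬ j ∉ {j | b j = none}} :=
      (Equiv.sumCompl (fun j => j ∉ {j | b j = none})).symm
    rw [dn_glue e]
    have h1 : ∀ v : {j // ¬ j ∉ {j | b j = none}} → α,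
        dn {u : {j // j ∉ {j | b j = none}} → α | glue e u v ∈ {w : ι → α | ss_st b w ∈ E}} =
        dn {w : {j // j ∉ {j | b j = none}} → α | inc (fillT i {j | b j = none} w) ∈ E} := by
      intro v
      congr 1
      ext u
      simp only [Set.mem_ofPred_eq]
      have h2 : (fun j : {j // j ∉ {j | b j = none}} => glue e u v j.1) = u := by
        funext j
        have : e j.1 = Sum.inl j := Equiv.sumCompl_symm_apply_pos j
        simp only [glue, this]
        rfl
      have h3 := hE (ss_st b (glue e u v))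
      rw [ss_rep, h2] at h3
      exact h3
    rw [show (fun v : {j // ¬ j ∉ {j | b j = none}} → α =>
        dn {u : {j // j ∉ {j | b j = none}} → α | glue e u v ∈ {w : ι → α | ss_st b w ∈ E}}) =
        fun _ => dn {w : {j // j ∉ {j | b j = none}} → α |
          inc (fillT i {j | b j = none} w) ∈ E} from funext h1]
    exact av_const _

end Pool.Agent.Helper52.SZ
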